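import Pool.Agent.X279.KP.Main

/-!
# Nilpotence descends from symmetric or exterior powers
-/

set_option autoImplicit false
set_option linter.unusedSectionVars false
set_option linter.unusedSimpArgs false

open CategoryTheory Limits MonoidalCategory
open Pool.Agent.Y112.SR Pool.Agent.Y112.KD
open Pool.Agent.TH829.Kim (K K_of_tr_zero InRad)
open Pool.Agent.Y116.MT (tr)

namespace Pool.Agent.X279.KP

universe v u w

section

variable {C : Type u} [Category.{v} C] [Preadditive C] [Linear ℚ C] [MonoidalCategory C]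
  [MonoidalPreadditive C] [MonoidalLinear ℚ C] [SymmetricCategory C]

lemma Dn_const {X : C} (g : X ⟶ X) (n : ℕ) : Dn n (fun _ => g) = tpm g n := by
  induction n with
  | zero => rfl
  | succ n ih =>
    rw [Dn_succ, ih]
    rfl

/-- the endomorphism of the power `P` induced by `f` -/
def ind {X P : C} {n : ℕ} (i : P ⟶ tp X n) (r : tp X n ⟶ P) (f : X ⟶ X) : P ⟶ P :=
  i ≫ tpm f n ≫ r

lemma ind_comp {η : ℚ} {X P : C} {n : ℕ} {i : P ⟶ tp X n}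
    {r : tp X n ⟶ P} (hir : i ≫ r = 𝟙 P) (hri : r ≫ i = asym η X n) (f g : X ⟶ X) :
    ind i r f ≫ ind i r g = ind i r (f ≫ g) := by
  have h1 : ind i r f ≫ ind i r g = i ≫ (tpm f n ≫ asym η X n) ≫ tpm g n ≫ r := by
    rw [← hri]
    simp only [ind, Category.assoc]
  rw [h1, asym_nat, ← hri]
  simp only [Category.assoc]
  rw [reassoc_of% hir, ← Category.assoc (tpm f n), tpm_comp, ind]

/-- the same as an element of the endomorphism ring -/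
def indE {X P : C} {n : ℕ} (i : P ⟶ tp X n) (r : tp X n ⟶ P) (f : End X) : End P :=
  ind i r (f : X ⟶ X)

lemma indE_pow {η : ℚ} {X P : C} {n : ℕ} {i : P ⟶ tp X n} {r : tp X n ⟶ P}
    (hir : i ≫ r = 𝟙 P) (hri : r ≫ i = asym η X n) (f : End X) (k : ℕ) :
    (indE i r f) ^ k = indE i r (f ^ k) := by
  induction k with
  | zero =>
    rw [pow_zero, pow_zero]
    change 𝟙 P = ind i r (𝟙 X)
    rw [ind, tpm_id, Category.id_comp, hir]
  | succ k ih =>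
    rw [pow_succ, pow_succ, ih, End.mul_def, End.mul_def]
    exact ind_comp hir hri _ _

end

section

variable {C : Type u} [Category.{v} C] [Preadditive C] [Linear ℚ C] [MonoidalCategory C]
  [MonoidalPreadditive C] [MonoidalLinear ℚ C] [SymmetricCategory C] [RightRigidCategory C]

/-- If the endomorphism of the power induced by `g` vanishes and the traces of the powers of `g`
vanish then `g ^ n = 0`. -/
theorem pow_eq_zero_of_ind (hU : UnitQ C) {η : ℚ} (hη : η * η = 1) {X P : C} {n : ℕ} (hn : 1 ≤ n)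
    {i : P ⟶ tp X n} {r : tp X n ⟶ P} (hri : r ≫ i = asym η X n)
    (g : End X) (ht : ∀ k, 1 ≤ k → trq hU X (g ^ k) = 0) (h0 : indE i r g = 0) :
    g ^ n = 0 := by
  obtain ⟨n, rfl⟩ : ∃ l, n = l + 1 := ⟨n - 1, by omega⟩
  have hη0 : η ≠ 0 := fun h => by simp [h] at hη
  have h1 : tpm (g : X ⟶ X) (n + 1) ≫ asym η X (n + 1) = 0 := by
    have h2 : asym η X (n + 1) ≫ tpm (g : X ⟶ X) (n + 1) ≫ asym η X (n + 1) =
        tpm (g : X ⟶ X) (n + 1) ≫ asym η X (n + 1) := by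
      rw [← Category.assoc, ← asym_nat, Category.assoc, asym_idem hη]
    rw [← h2, ← hri]
    have h3 : (r ≫ i) ≫ tpm (g : X ⟶ X) (n + 1) ≫ r ≫ i = r ≫ ind i r (g : X ⟶ X) ≫ i := by
      simp only [ind, Category.assoc]
    have h4 : ind i r (g : X ⟶ X) = 0 := h0
    rw [h3, h4]
    simp
  have h2 : gg η (n + 1) (fun _ => g) = 0 := by
    rw [gg]
    have h3 := Dn_const (g : X ⟶ X) (n + 1)
    change ((n + 1).factorial : ℚ) • (Dn (n + 1) (fun _ => (g : X ⟶ X)) ≫ asym η X (n + 1)) = 0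
    rw [h3, h1, smul_zero]
  have h3 := cc_gg hU hη n (fun _ => g)
  rw [h2, map_zero] at h3
  have h4 := K_of_tr_zero (trq hU X) η (h := g) ht n (fun _ => 1) (fun _ => le_rfl)
  simp only [pow_one, Finset.sum_const, Finset.card_univ, Fintype.card_fin, smul_eq_mul,
    mul_one] at h4
  rw [← h3] at h4
  have h5 : (η ^ n * n.factorial : ℚ) ≠ 0 := by positivity
  exact (smul_eq_zero.1 h4.symm).resolve_left h5

/-- the uniform form -/
theorem pow_eq_zero' (hU : UnitQ C) {η : ℚ} (hη : η * η = 1) {X P : C} {n : ℕ} (hn : 1 ≤ n)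
    {i : P ⟶ tp X n} {r : tp X n ⟶ P} (hir : i ≫ r = 𝟙 P) (hri : r ≫ i = asym η X n)
    (f : End X) (ht : ∀ k, 1 ≤ k → trq hU X (f ^ k) = 0) {k : ℕ} (hk : 1 ≤ k)
    (h0 : (indE i r f) ^ k = 0) : f ^ (k * n) = 0 := by
  rw [indE_pow hir hri] at h0
  rw [pow_mul]
  refine pow_eq_zero_of_ind hU hη hn hri (f ^ k) (fun l hl => ?_) h0
  rw [← pow_mul]
  exact ht _ (Nat.mul_pos hk hl)

variable {K : Type w} [Field K] (R : SuperRealisation C K)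

lemma map_tpm_zero {X : C} (f : X ⟶ X) (hf : R.H.map f = 0) {n : ℕ} (hn : 1 ≤ n) :
    R.H.map (tpm f n) = 0 := by
  obtain ⟨n, rfl⟩ : ∃ l, n = l + 1 := ⟨n - 1, by omega⟩
  change R.H.map (tpm f n ⊗ₘ f) = 0
  rw [Functor.Monoidal.map_tensor, hf]
  simp

/-- an endomorphism with vanishing realisation induces one -/
lemma map_indE_zero {X P : C} {n : ℕ} (hn : 1 ≤ n) (i : P ⟶ tp X n) (r : tp X n ⟶ P) (f : End X)
    (hf : R.H.map (f : X ⟶ X) = 0) : R.H.map (indE i r f : P ⟶ P) = 0 := by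
  change R.H.map (i ≫ tpm (f : X ⟶ X) n ≫ r) = 0
  rw [Functor.map_comp, Functor.map_comp, map_tpm_zero R (f : X ⟶ X) hf hn]
  simp

include R in
/-- `a ⊗ f` is numerically trivial if `f` is -/
lemma inRad_tensor (hU : UnitQ C) {X Y : C} (a : End X) (f : End Y) (hf : InRad (trq hU Y) f) :
    InRad (trq hU (X ⊗ Y)) (show End (X ⊗ Y) from ((a : X ⟶ X) ⊗ₘ (f : Y ⟶ Y))) := by
  intro y
  let y' : X ⊗ Y ⟶ X ⊗ Y := y
  -- `y * (a ⊗ f)` is `(a ⊗ f) ≫ y`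
  have h0 : trq hU (X ⊗ Y) ((show End (X ⊗ Y) from ((a : X ⟶ X) ⊗ₘ (f : Y ⟶ Y))) * y) =
      trq hU (X ⊗ Y) (show End (X ⊗ Y) from (y' ≫ ((a : X ⟶ X) ⊗ₘ (f : Y ⟶ Y)))) := rfl
  rw [h0]
  have h1 : (y' ≫ ((a : X ⟶ X) ⊗ₘ (f : Y ⟶ Y)) : X ⊗ Y ⟶ X ⊗ Y) =
      (y' ≫ ((a : X ⟶ X) ⊗ₘ (f : Y ⟶ Y)) ≫ (β_ X Y).hom) ≫ (β_ X Y).inv := by simp
  rw [h1]
  have h2 := trq_comm' R hU (y' ≫ ((a : X ⟶ X) ⊗ₘ (f : Y ⟶ Y)) ≫ (β_ X Y).hom) (β_ X Y).inv
  refine h2.trans ?_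
  have h3 : ((a : X ⟶ X) ⊗ₘ (f : Y ⟶ Y)) ≫ (β_ X Y).hom =
      (β_ X Y).hom ≫ (Y ◁ (a : X ⟶ X)) ≫ ((f : Y ⟶ Y) ▷ X) := by
    rw [BraidedCategory.braiding_naturality, MonoidalCategory.tensorHom_def']
  have h4 : (β_ X Y).inv ≫ y' ≫ ((a : X ⟶ X) ⊗ₘ (f : Y ⟶ Y)) ≫ (β_ X Y).hom =
      ((β_ X Y).inv ≫ y' ≫ (β_ X Y).hom ≫ (Y ◁ (a : X ⟶ X))) ≫ ((f : Y ⟶ Y) ▷ X) := by
    rw [h3]
    simp only [Category.assoc]
  have h5 : trq hU (Y ⊗ X) ((β_ X Y).inv ≫ y' ≫ ((a : X ⟶ X) ⊗ₘ (f : Y ⟶ Y)) ≫ (β_ X Y).hom) = 0 := by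
    rw [h4, ← trq_ptr R hU, ptr_comp_right]
    exact hf (show End Y from (Pool.Agent.Y112.SR.ptr
      ((β_ X Y).inv ≫ y' ≫ (β_ X Y).hom ≫ (Y ◁ (a : X ⟶ X)))))
  exact h5

include R in
/-- a numerically trivial endomorphism induces a numerically trivial one -/
lemma inRad_indE (hU : UnitQ C) {X P : C} {n : ℕ} (hn : 1 ≤ n) (i : P ⟶ tp X n) (r : tp X n ⟶ P)
    (f : End X) (hf : InRad (trq hU X) f) : InRad (trq hU P) (indE i r f) := by
  obtain ⟨n, rfl⟩ : ∃ l, n = l + 1 := ⟨n - 1, by omega⟩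
  intro g
  let g' : P ⟶ P := g
  have h0 : trq hU P (indE i r f * g) = trq hU P (show End P from (g' ≫ i ≫
      (tpm (f : X ⟶ X) n ⊗ₘ (f : X ⟶ X)) ≫ r)) := rfl
  rw [h0]
  have h1 : (g' ≫ i ≫ (tpm (f : X ⟶ X) n ⊗ₘ (f : X ⟶ X)) ≫ r) =
      (g' ≫ i ≫ (tpm (f : X ⟶ X) n ⊗ₘ (f : X ⟶ X))) ≫ r := by simp only [Category.assoc]
  rw [h1]
  have h2 := trq_comm' R hU (g' ≫ i ≫ (tpm (f : X ⟶ X) n ⊗ₘ (f : X ⟶ X))) r
  refine h2.trans ?_
  have h3 := inRad_tensor R hU (X := tp X n) (Y := X) (show End (tp X n) from tpm (f : X ⟶ X) n) f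
    hf (show End (tp X n ⊗ X) from (r ≫ g' ≫ i))
  have h4 : r ≫ g' ≫ i ≫ (tpm (f : X ⟶ X) n ⊗ₘ (f : X ⟶ X)) =
      (r ≫ g' ≫ i) ≫ (tpm (f : X ⟶ X) n ⊗ₘ (f : X ⟶ X)) := by simp only [Category.assoc]
  rw [h4]
  exact h3

end

end Pool.Agent.X279.KP
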