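import Pool.Agent.X264.KF.Desc

/-!
# Symmetrizers of the last factors of a tensor power
-/

set_option autoImplicit false
set_option linter.unusedSectionVars false
set_option linter.unusedSimpArgs false

open CategoryTheory Limits MonoidalCategory
open Pool.Agent.Y112.KD

namespace Pool.Agent.X279.KP

universe v u w

section

variable {C : Type u} [Category.{v} C] [MonoidalCategory C] [SymmetricCategory C]

/-- `X ^ n ⊗ X ^ k = X ^ (n + k)` -/
def kap (X : C) (n : ℕ) : ∀ k : ℕ, (tp X n ⊗ tp X k) ≅ tp X (n + k)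
  | 0 => ρ_ (tp X n)
  | k + 1 => (α_ (tp X n) (tp X k) X).symm ≪≫ whiskerRightIso (kap X n k) X

lemma kap_succ_hom (X : C) (n k : ℕ) : (kap X n (k + 1)).hom =
    (α_ (tp X n) (tp X k) X).inv ≫ (kap X n k).hom ▷ X := rfl

lemma kap_succ_inv (X : C) (n k : ℕ) : (kap X n (k + 1)).inv =
    (kap X n k).inv ▷ X ≫ (α_ (tp X n) (tp X k) X).hom := rfl

/-- an operator on the last `k` factors -/
def cj {X : C} (n k : ℕ) (y : tp X k ⟶ tp X k) : tp X (n + k) ⟶ tp X (n + k) :=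
  (kap X n k).inv ≫ tp X n ◁ y ≫ (kap X n k).hom

/-- an operator on the first `n` factors -/
def ci {X : C} (n k : ℕ) (x : tp X n ⟶ tp X n) : tp X (n + k) ⟶ tp X (n + k) :=
  (kap X n k).inv ≫ x ▷ tp X k ≫ (kap X n k).hom

lemma cj_right {X : C} (n k : ℕ) (y : tp X k ⟶ tp X k) :
    cj n (k + 1) (y ▷ X) = cj n k y ▷ X := by
  rw [cj, cj, kap_succ_inv, kap_succ_hom]
  simp only [Category.assoc, comp_whiskerRight, whisker_assoc]

lemma ci_right {X : C} (n k : ℕ) (x : tp X n ⟶ tp X n) : ci n (k + 1) x = ci n k x ▷ X := by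
  rw [ci, ci, kap_succ_inv, kap_succ_hom]
  have h : x ▷ (tp X k ⊗ X) = (α_ (tp X n) (tp X k) X).inv ≫ (x ▷ tp X k) ▷ X ≫
      (α_ (tp X n) (tp X k) X).hom := by simp
  change ((kap X n k).inv ▷ X ≫ (α_ (tp X n) (tp X k) X).hom) ≫ x ▷ (tp X k ⊗ X) ≫
    (α_ (tp X n) (tp X k) X).inv ≫ (kap X n k).hom ▷ X = _
  rw [h]
  simp

lemma ci_zero {X : C} (n : ℕ) (x : tp X n ⟶ tp X n) : ci n 0 x = x := by
  rw [ci, kap]
  simp

lemma cj_id {X : C} (n k : ℕ) : cj n k (𝟙 (tp X k)) = 𝟙 _ := by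
  rw [cj]
  simp

lemma cj_comp {X : C} (n k : ℕ) (y z : tp X k ⟶ tp X k) : cj n k (y ≫ z) = cj n k y ≫ cj n k z := by
  rw [cj, cj, cj]
  simp

lemma cj_sw {X : C} (n k : ℕ) : cj n (k + 2) (sw (tp X k) X) = sw (tp X (n + k)) X := by
  rw [cj, kap_succ_inv, kap_succ_hom, kap_succ_inv, kap_succ_hom]
  have h := sw_nat (kap X n k).hom (𝟙 X) (𝟙 X)
  have h1 : ((kap X n k).hom ▷ X ▷ X) ≫ sw (tp X (n + k)) X =
      sw (tp X n ⊗ tp X k) X ≫ ((kap X n k).hom ▷ X ▷ X) := sw_nat_left _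
  have h2 : ((kap X n k).inv ▷ X) ▷ X ≫ ((kap X n k).hom ▷ X) ▷ X = 𝟙 _ := by
    rw [← comp_whiskerRight, ← comp_whiskerRight]
    simp
  have h3 : sw (tp X (n + k)) X = ((kap X n k).inv ▷ X) ▷ X ≫ sw (tp X n ⊗ tp X k) X ≫
      ((kap X n k).hom ▷ X) ▷ X := by
    rw [← h1, reassoc_of% h2]
  rw [h3]
  simp only [comp_whiskerRight, Category.assoc]
  congr 1
  have h4 : sw (tp X n ⊗ tp X k) X = (α_ (tp X n) (tp X k) X).hom ▷ X ≫
      (α_ (tp X n) (tp X k ⊗ X) X).hom ≫ tp X n ◁ sw (tp X k) X ≫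
      (α_ (tp X n) (tp X k ⊗ X) X).inv ≫ (α_ (tp X n) (tp X k) X).inv ▷ X := by
    rw [sw, sw]
    monoidal
  rw [h4]
  simp only [Category.assoc]

end

section

variable {C : Type u} [Category.{v} C] [MonoidalCategory C] [SymmetricCategory C]
  [Preadditive C] [Linear ℚ C] [MonoidalPreadditive C] [MonoidalLinear ℚ C]

lemma cj_add {X : C} (n k : ℕ) (y z : tp X k ⟶ tp X k) : cj n k (y + z) = cj n k y + cj n k z := by
  rw [cj, cj, cj, MonoidalPreadditive.whiskerLeft_add]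
  simp

lemma cj_smul {X : C} (n k : ℕ) (c : ℚ) (y : tp X k ⟶ tp X k) :
    cj n k (c • y) = c • cj n k y := by
  rw [cj, cj, MonoidalLinear.whiskerLeft_smul]
  simp

/-- the (anti)symmetrizer of the last `k` factors, recursively -/
lemma cj_asym {X : C} (η : ℚ) (n k : ℕ) : cj n (k + 2) (asym η X (k + 2)) =
    (((k + 1 : ℕ) : ℚ) + 1)⁻¹ • (cj n (k + 1) (asym η X (k + 1)) ▷ X +
      (η * ((k + 1 : ℕ) : ℚ)) • ((cj n (k + 1) (asym η X (k + 1)) ▷ X) ≫ sw (tp X (n + k)) X ≫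
        (cj n (k + 1) (asym η X (k + 1)) ▷ X))) := by
  rw [asym_succ, cj_smul, cj_add, cj_smul, cj_comp, cj_comp, cj_sw]
  have h : cj n (k + 2) (asym η X (k + 1) ▷ X) = cj n (k + 1) (asym η X (k + 1)) ▷ X :=
    cj_right n (k + 1) _
  rw [h]

lemma cj_absorb {X : C} {η : ℚ} (hη : η * η = 1) (n k : ℕ) :
    cj n k (asym η X k) ≫ asym η X (n + k) = asym η X (n + k) ∧
    asym η X (n + k) ≫ cj n k (asym η X k) = asym η X (n + k) := by
  rcases k with - | k
  · rw [asym_zero, cj_id]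
    simp
  induction k with
  | zero =>
    rw [asym_one, cj_id]
    simp
  | succ k ih =>
    obtain ⟨h1, h2⟩ := ih
    have h3 := absorb hη X (n + k + 1)
    have h4 := swap_asym hη X (IsSwap.last (X := X) (n + k))
    have h5 : (cj n (k + 1) (asym η X (k + 1)) ▷ X) ≫ asym η X (n + k + 2) =
        asym η X (n + k + 2) := by
      rw [← h3.1, ← Category.assoc, ← comp_whiskerRight]
      have h6 : cj n (k + 1) (asym η X (k + 1)) ≫ asym η X (n + k + 1) = asym η X (n + k + 1) := h1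
      rw [h6]
    have h5' : asym η X (n + k + 2) ≫ (cj n (k + 1) (asym η X (k + 1)) ▷ X) =
        asym η X (n + k + 2) := by
      rw [← h3.2, Category.assoc, ← comp_whiskerRight]
      have h6 : asym η X (n + k + 1) ≫ cj n (k + 1) (asym η X (k + 1)) = asym η X (n + k + 1) := h2
      rw [h6]
    have hk : ((k + 1 : ℕ) : ℚ) + 1 ≠ 0 := by positivity
    have e1 : η * ((k + 1 : ℕ) : ℚ) * η = ((k + 1 : ℕ) : ℚ) := by
      linear_combination ((k + 1 : ℕ) : ℚ) * hη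
    have e2 : ∀ {U V : C} (h : U ⟶ V), h + ((k + 1 : ℕ) : ℚ) • h = (((k + 1 : ℕ) : ℚ) + 1) • h :=
      fun h => by module
    constructor
    · change cj n (k + 2) (asym η X (k + 2)) ≫ asym η X (n + k + 2) = asym η X (n + k + 2)
      rw [cj_asym, Linear.smul_comp, Preadditive.add_comp, Linear.smul_comp, Category.assoc,
        Category.assoc, h5, h4.1, Linear.comp_smul, h5, smul_smul, e1, e2, smul_smul,
        inv_mul_cancel₀ hk, one_smul]
    · change asym η X (n + k + 2) ≫ cj n (k + 2) (asym η X (k + 2)) = asym η X (n + k + 2)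
      rw [cj_asym, Linear.comp_smul, Preadditive.comp_add, Linear.comp_smul, reassoc_of% h5', h5',
        reassoc_of% h4.2, Linear.smul_comp, h5', smul_smul, e1, e2, smul_smul,
        inv_mul_cancel₀ hk, one_smul]

lemma ci_absorb {X : C} {η : ℚ} (hη : η * η = 1) (n k : ℕ) :
    ci n k (asym η X n) ≫ asym η X (n + k) = asym η X (n + k) ∧
    asym η X (n + k) ≫ ci n k (asym η X n) = asym η X (n + k) := by
  induction k with
  | zero =>
    rw [ci_zero]
    exact ⟨asym_idem hη X n, asym_idem hη X n⟩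
  | succ k ih =>
    obtain ⟨h1, h2⟩ := ih
    have h3 := absorb hη X (n + k)
    rw [ci_right]
    constructor
    · change ci n k (asym η X n) ▷ X ≫ asym η X (n + k + 1) = asym η X (n + k + 1)
      rw [← h3.1, ← Category.assoc, ← comp_whiskerRight, h1]
    · change asym η X (n + k + 1) ≫ ci n k (asym η X n) ▷ X = asym η X (n + k + 1)
      rw [← h3.2, Category.assoc, ← comp_whiskerRight, h2]

/-- `X ⊗ S ^ (n + k + 1) X` is a direct summand of `S ^ n X ⊗ S ^ (k + 2) X`: the computation. -/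
lemma hqh {X : C} {η : ℚ} (hη : η * η = 1) (n k : ℕ) (hn : 1 ≤ n) :
    ∃ z : tp X (n + k + 2) ⟶ tp X (n + k + 2),
      (asym η X (n + k + 1) ▷ X) ≫ ci n (k + 2) (asym η X n) ≫ cj n (k + 2) (asym η X (k + 2)) ≫
        (asym η X (n + k + 1) ▷ X) ≫ z = asym η X (n + k + 1) ▷ X := by
  set h : tp X (n + k + 2) ⟶ tp X (n + k + 2) := asym η X (n + k + 1) ▷ X with hh
  set t : tp X (n + k + 2) ⟶ tp X (n + k + 2) := asym η X (n + k + 2) with ht
  set s : tp X (n + k + 2) ⟶ tp X (n + k + 2) := sw (tp X (n + k)) X with hs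
  have h1 : h ≫ h = h := by
    rw [hh, ← comp_whiskerRight, asym_idem hη]
  have h2 : h ≫ t = t := (absorb hη X (n + k + 1)).1
  have h3 : t ≫ h = t := (absorb hη X (n + k + 1)).2
  have h4 : t ≫ t = t := asym_idem hη X (n + k + 2)
  have h5 : h ≫ ci n (k + 2) (asym η X n) = h := by
    change (asym η X (n + k + 1) ▷ X) ≫ ci n (k + 1 + 1) (asym η X n) = _
    rw [ci_right, ← comp_whiskerRight]
    have := (ci_absorb (X := X) hη n (k + 1)).2
    change asym η X (n + k + 1) ≫ ci n (k + 1) (asym η X n) = asym η X (n + k + 1) at this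
    rw [this]
  have h6 : h ≫ (cj n (k + 1) (asym η X (k + 1)) ▷ X) = h := by
    rw [hh, ← comp_whiskerRight]
    have := (cj_absorb (X := X) hη n (k + 1)).2
    change asym η X (n + k + 1) ≫ cj n (k + 1) (asym η X (k + 1)) = asym η X (n + k + 1) at this
    rw [this]
  have h6' : (cj n (k + 1) (asym η X (k + 1)) ▷ X) ≫ h = h := by
    rw [hh, ← comp_whiskerRight]
    have := (cj_absorb (X := X) hη n (k + 1)).1
    change cj n (k + 1) (asym η X (k + 1)) ≫ asym η X (n + k + 1) = asym η X (n + k + 1) at this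
    rw [this]
  have h7 : t = (((n + k + 1 : ℕ) : ℚ) + 1)⁻¹ • (h + (η * ((n + k + 1 : ℕ) : ℚ)) •
      (h ≫ s ≫ h)) := asym_succ η X (n + k)
  have h8 : h ≫ cj n (k + 2) (asym η X (k + 2)) ≫ h = (((k + 1 : ℕ) : ℚ) + 1)⁻¹ • (h +
      (η * ((k + 1 : ℕ) : ℚ)) • (h ≫ s ≫ h)) := by
    rw [cj_asym, Linear.smul_comp, Linear.comp_smul, Preadditive.add_comp, Preadditive.comp_add,
      h6', h1, Linear.smul_comp, Linear.comp_smul]
    simp only [Category.assoc]
    rw [h6', reassoc_of% h6]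
  have hN : ((n + k + 1 : ℕ) : ℚ) ≠ 0 := by positivity
  have hN' : ((n + k + 1 : ℕ) : ℚ) + 1 ≠ 0 := by positivity
  have hk : ((k + 1 : ℕ) : ℚ) + 1 ≠ 0 := by positivity
  have hn' : (n : ℚ) ≠ 0 := by positivity
  have h9 : (η * ((n + k + 1 : ℕ) : ℚ)) • (h ≫ s ≫ h) = (((n + k + 1 : ℕ) : ℚ) + 1) • t - h := by
    rw [h7, smul_smul, mul_inv_cancel₀ hN', one_smul, add_sub_cancel_left]
  set al : ℚ := (n : ℚ) / (((n + k + 1 : ℕ) : ℚ) * (((k + 1 : ℕ) : ℚ) + 1)) with hal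
  have hal0 : al ≠ 0 := by
    rw [hal]
    positivity
  have h10 : h ≫ cj n (k + 2) (asym η X (k + 2)) ≫ h = al • (h - t) + t := by
    rw [h8]
    have e1 : (η * ((k + 1 : ℕ) : ℚ)) • (h ≫ s ≫ h) = (((k + 1 : ℕ) : ℚ) / ((n + k + 1 : ℕ) : ℚ)) •
        ((((n + k + 1 : ℕ) : ℚ) + 1) • t - h) := by
      rw [← h9, smul_smul]
      congr 1
      field_simp
    rw [e1, smul_sub, smul_smul, smul_add, smul_sub, smul_smul, smul_smul, smul_sub]
    have e2 : (((k + 1 : ℕ) : ℚ) + 1)⁻¹ - (((k + 1 : ℕ) : ℚ) + 1)⁻¹ *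
        (((k + 1 : ℕ) : ℚ) / ((n + k + 1 : ℕ) : ℚ)) = al := by
      rw [hal]
      push_cast at hN hk ⊢
      field_simp
      ring
    have e3 : (((k + 1 : ℕ) : ℚ) + 1)⁻¹ * ((((k + 1 : ℕ) : ℚ) / ((n + k + 1 : ℕ) : ℚ)) *
        (((n + k + 1 : ℕ) : ℚ) + 1)) = 1 - al := by
      rw [hal]
      push_cast at hN hk ⊢
      field_simp
      ring
    rw [e3, ← e2]
    module
  refine ⟨al⁻¹ • (h - t) + t, ?_⟩
  have h11 : h ≫ ci n (k + 2) (asym η X n) ≫ cj n (k + 2) (asym η X (k + 2)) ≫ h ≫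
      (al⁻¹ • (h - t) + t) = (h ≫ cj n (k + 2) (asym η X (k + 2)) ≫ h) ≫
      (al⁻¹ • (h - t) + t) := by
    rw [reassoc_of% h5]
    simp only [Category.assoc]
  rw [h11, h10]
  simp only [Preadditive.add_comp, Preadditive.comp_add, Preadditive.sub_comp,
    Preadditive.comp_sub, Linear.smul_comp, Linear.comp_smul, h1, h2, h3, h4, sub_self, sub_zero,
    smul_zero, zero_add, add_zero]
  rw [add_sub_cancel_right, smul_smul, inv_mul_cancel₀ hal0, one_smul]
  abel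

end

end Pool.Agent.X279.KP
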