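import Pool.Agent.X279.KP.Cut

/-!
# Kimura-finiteness descends from products of symmetric or exterior powers
-/

set_option autoImplicit false
set_option linter.unusedSectionVars false
set_option linter.unusedSimpArgs false

open CategoryTheory Limits MonoidalCategory
open Pool.Agent.Y112.SR Pool.Agent.Y112.KD Pool.Agent.X264.KF

namespace Pool.Agent.X279.KP

universe v u w

section

variable {C : Type u} [Category.{v} C] [MonoidalCategory C] [SymmetricCategory C]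
  [Preadditive C] [Linear ℚ C]

/-- `P` is the `n`-th symmetric power (for `η = 1`) or the `n`-th exterior power (for `η = -1`) of
`M`: the direct summand of the tensor power `M ^ n` which is cut out by the (anti)symmetrizer. -/
def IsPower (η : ℚ) (M : C) (n : ℕ) (P : C) : Prop :=
  ∃ (i : P ⟶ tp M n) (r : tp M n ⟶ P), i ≫ r = 𝟙 P ∧ r ≫ i = asym η M n

end

section

variable {C : Type u} [Category.{v} C] [Preadditive C] [Linear ℚ C] [MonoidalCategory C]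
  [MonoidalPreadditive C] [MonoidalLinear ℚ C] [SymmetricCategory C]

/-- `S ^ (n + k + 1) X ⊗ X` is a direct summand of `S ^ n X ⊗ S ^ (k + 2) X`. -/
theorem retract {η : ℚ} (hη : η * η = 1) {X P Q T : C} (n k : ℕ) (hn : 1 ≤ n)
    (hP : IsPower η X n P) (hQ : IsPower η X (k + 2) Q) (hT : IsPower η X (n + k + 1) T) :
    ∃ (a : T ⊗ X ⟶ P ⊗ Q) (b : P ⊗ Q ⟶ T ⊗ X), a ≫ b = 𝟙 _ := by
  obtain ⟨i, r, hir, hri⟩ := hP
  obtain ⟨i', r', hir', hri'⟩ := hQ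
  obtain ⟨j, s, hjs, hsj⟩ := hT
  obtain ⟨z, hz⟩ := hqh (X := X) hη n k hn
  let ka := kap X n (k + 2)
  refine ⟨(j ▷ X) ≫ ka.inv ≫ (r ⊗ₘ r'), (i ⊗ₘ i') ≫ ka.hom ≫ (s ▷ X) ≫ (j ▷ X) ≫ z ≫ (s ▷ X), ?_⟩
  have h1 : (r ⊗ₘ r') ≫ (i ⊗ₘ i') = (asym η X n) ▷ tp X (k + 2) ≫ tp X n ◁ asym η X (k + 2) := by
    rw [tensorHom_comp_tensorHom, hri, hri', MonoidalCategory.tensorHom_def]
  have h2 : ka.inv ≫ ((asym η X n) ▷ tp X (k + 2) ≫ tp X n ◁ asym η X (k + 2)) ≫ ka.hom =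
      ci n (k + 2) (asym η X n) ≫ cj n (k + 2) (asym η X (k + 2)) := by
    rw [ci, cj]
    simp [ka]
  have h3 : (s ▷ X) ≫ (j ▷ X) = asym η X (n + k + 1) ▷ X := by
    rw [← comp_whiskerRight, hsj]
  have h4 : (j ▷ X) = (j ▷ X) ≫ (asym η X (n + k + 1) ▷ X) := by
    rw [← comp_whiskerRight, ← hsj, reassoc_of% hjs]
  have h5 : (j ▷ X) ≫ (s ▷ X) = 𝟙 _ := by
    rw [← comp_whiskerRight, hjs, id_whiskerRight]
  have h6 : ((j ▷ X) ≫ ka.inv ≫ (r ⊗ₘ r')) ≫ (i ⊗ₘ i') ≫ ka.hom ≫ (s ▷ X) ≫ (j ▷ X) ≫ z ≫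
      (s ▷ X) = (j ▷ X) ≫ (ka.inv ≫ ((r ⊗ₘ r') ≫ (i ⊗ₘ i')) ≫ ka.hom) ≫ ((s ▷ X) ≫ (j ▷ X)) ≫
      z ≫ (s ▷ X) := by
    simp only [Category.assoc]
  rw [h6, h1, h2, h3, h4]
  have h7 := congrArg (fun y => (j ▷ X) ≫ y ≫ (s ▷ X)) hz
  simp only [Category.assoc] at h7 ⊢
  rw [h7, ← Category.assoc, ← h4, h5]

end

section

variable {C : Type u} [Category.{v} C] [Preadditive C] [Linear ℚ C] [MonoidalCategory C]
  [MonoidalPreadditive C] [MonoidalLinear ℚ C] [SymmetricCategory C] [RightRigidCategory C]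
  [IsIdempotentComplete C] {K : Type w} [Field K] (R : SuperRealisation C K)

include R in
/-- A direct summand of a Kimura-finite object is Kimura-finite. -/
theorem kf_retract (hU : UnitQ C) {Z W : C} (hZ : IsKimuraFinite Z) (a : W ⟶ Z) (b : Z ⟶ W)
    (hab : a ≫ b = 𝟙 W) : IsKimuraFinite W := by
  have e1 : ((-1 : ℚ) * (-1)) = 1 := by norm_num
  have e2 : ((1 : ℚ) * 1) = 1 := by norm_num
  have hK := R_charZero R
  have hC : R.CPlus W := cplus_retract R a b hab (cplus_of_kf R hZ)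
  have hnil : ∀ x : End W, R.H.map (x : W ⟶ W) = 0 → IsNilpotent x := by
    intro x hx
    let y : End Z := (b ≫ (x : W ⟶ W) ≫ a : Z ⟶ Z)
    have hy : R.H.map (y : Z ⟶ Z) = 0 := by
      change R.H.map (b ≫ (x : W ⟶ W) ≫ a) = 0
      rw [Functor.map_comp, Functor.map_comp, hx, zero_comp, comp_zero]
    obtain ⟨k, hk⟩ := nil_of_kf R hU hZ y hy
    have hpow : ∀ l : ℕ, a ≫ (y ^ l : End Z) ≫ b = (x ^ l : End W) := by
      intro l
      induction l with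
      | zero =>
        rw [pow_zero, pow_zero]
        change a ≫ 𝟙 Z ≫ b = 𝟙 W
        rw [Category.id_comp, hab]
      | succ l ih =>
        rw [pow_succ, pow_succ, End.mul_def, End.mul_def, ← ih]
        change a ≫ ((b ≫ (x : W ⟶ W) ≫ a) ≫ (y ^ l : End Z)) ≫ b =
          (x : W ⟶ W) ≫ a ≫ (y ^ l : End Z) ≫ b
        simp only [Category.assoc]
        rw [reassoc_of% hab]
    refine ⟨k, ?_⟩
    rw [← hpow k, hk]
    change a ≫ (0 : Z ⟶ Z) ≫ b = 0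
    rw [zero_comp, comp_zero]
  obtain ⟨A, B, i, r, j, s, h1, h2, h3, h4, h5⟩ := exists_split R hC hnil
  obtain ⟨n, hn⟩ := kill_retract R hU hZ (η := -1) (Or.inr rfl) (X := A) (i ≫ a) (b ≫ r)
    (by rw [Category.assoc, reassoc_of% hab, h1]) (by rw [h4]; push_cast; rw [neg_neg])
  obtain ⟨m, hm⟩ := kill_retract R hU hZ (η := 1) (Or.inl rfl) (X := B) (j ≫ a) (b ≫ s)
    (by rw [Category.assoc, reassoc_of% hab, h2]) (by rw [h5]; push_cast; rfl)
  exact ⟨A, B, i, r, j, s, h1, h2, h3, ⟨n, (kills_iff e1 A n).mpr hn⟩,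
    ⟨m, (kills_iff e2 B m).mpr hm⟩⟩

lemma not_isZero_of_map {X Y : C} (f : X ⟶ Y) (hf : R.H.map f ≠ 0) :
    ¬ IsZero (R.H.obj X) ∧ ¬ IsZero (R.H.obj Y) :=
  ⟨fun h => hf (h.eq_of_src _ _), fun h => hf (h.eq_of_tgt _ _)⟩

lemma not_isZero_of_tp {X : C} {n : ℕ} (hn : 1 ≤ n) (h : ¬ IsZero (R.H.obj (tp X n))) :
    ¬ IsZero (R.H.obj X) := by
  obtain ⟨n, rfl⟩ : ∃ l, n = l + 1 := ⟨n - 1, by omega⟩
  intro h0
  apply h
  have h1 : IsZero (R.H.obj (tp X n) ⊗ R.H.obj X) := by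
    rw [IsZero.iff_id_eq_zero, ← id_tensorHom_id, h0.eq_of_src (𝟙 (R.H.obj X)) 0]
    simp
  exact h1.of_iso (Functor.Monoidal.μIso R.H (tp X n) X).symm

/-- **Kimura-finiteness descends from a product of two symmetric (or exterior) powers.** -/
theorem kf_of_powers (hU : UnitQ C) {η : ℚ} (hη : η * η = 1) {M P Q : C} {n m : ℕ} (hn : 1 ≤ n)
    (hm : 1 ≤ m) (hP : IsPower η M n P) (hQ : IsPower η M m Q)
    (h0 : R.H.map (asym η M (n + m - 1)) ≠ 0) (h : IsKimuraFinite (P ⊗ Q)) : IsKimuraFinite M := by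
  have hM : ¬ IsZero (R.H.obj M) :=
    not_isZero_of_tp R (by omega) (not_isZero_of_map R _ h0).1
  rcases Nat.lt_or_ge m 2 with hm2 | hm2
  · obtain rfl : m = 1 := by omega
    obtain ⟨i, r, hir, hri⟩ := hP
    obtain ⟨j, s, hjs, hsj⟩ := hQ
    rw [Nat.add_sub_cancel, ← hri, Functor.map_comp] at h0
    have hP0 : ¬ IsZero (R.H.obj P) := fun h1 => h0 (by rw [h1.eq_of_tgt (R.H.map r) 0, zero_comp])
    rw [asym_one] at hsj
    have e : Q ≅ M := ⟨j ≫ (λ_ M).hom, (λ_ M).inv ≫ s, by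
      simp [hjs], by
      rw [Category.assoc, reassoc_of% hsj]
      simp⟩
    exact kf_left R hU (h.of_iso (β_ P Q ≪≫ whiskerRightIso e P)) hM hP0
  · obtain ⟨k, rfl⟩ : ∃ l, m = l + 2 := ⟨m - 2, by omega⟩
    obtain ⟨T, j, s, hjs, hsj⟩ := IsIdempotentComplete.idempotents_split _
      (asym η M (n + k + 1)) (asym_idem hη M _)
    have hT : IsPower η M (n + k + 1) T := ⟨j, s, hjs, hsj⟩
    have h0' : R.H.map (asym η M (n + k + 1)) ≠ 0 := h0
    rw [← hsj, Functor.map_comp] at h0'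
    have hT0 : ¬ IsZero (R.H.obj T) := fun h1 => h0' (by rw [h1.eq_of_tgt (R.H.map s) 0, zero_comp])
    obtain ⟨a, b, hab⟩ := retract hη n k hn hP hQ hT
    exact kf_left R hU ((kf_retract R hU h a b hab).of_iso (β_ T M)) hM hT0

end

end Pool.Agent.X279.KP
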